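import Pool.Agent.Helper37.DG.Stmts

set_option autoImplicit false

namespace Pool.Agent.Helper37.DG

open Finset
open scoped Classical

theorem reg_root : ∃ j : ℕ → ℤ, Root j := by
  have h : ∀ p : ℕ, ∃ a : ℤ, p.Prime → p % 4 = 1 → (p : ℤ) ∣ a ^ 2 + 1 := by
    intro p
    by_cases hp : p.Prime ∧ p % 4 = 1
    · obtain ⟨hp1, hp2⟩ := hp
      have : Fact p.Prime := ⟨hp1⟩
      have h1 : IsSquare (-1 : ZMod p) := by
        rw [ZMod.exists_sq_eq_neg_one_iff]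
        omega
      obtain ⟨a, ha⟩ := h1
      refine ⟨(a.val : ℤ), fun _ _ => ?_⟩
      have h2 : ((((a.val : ℤ)) ^ 2 + 1 : ℤ) : ZMod p) = 0 := by
        push_cast
        rw [ZMod.natCast_zmod_val, sq, ← ha]
        ring
      exact (ZMod.intCast_zmod_eq_zero_iff_dvd _ p).1 h2
    · exact ⟨0, fun h1 h2 => absurd ⟨h1, h2⟩ hp⟩
  choose j hj using h
  exact ⟨j, fun p hp1 hp2 => hj p hp1 hp2⟩

theorem reg_card_box (N M : ℕ) (P : Finset (ℤ × ℤ)) (h : P ⊆ box N M) : P.card ≤ N * M := by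
  calc P.card ≤ (box N M).card := Finset.card_le_card h
    _ = N * M := by
      unfold box
      rw [Finset.card_product]
      simp

theorem reg_K (y b N : ℕ) (hy : 2 ≤ y) (hb : 1 ≤ b) (h : y ^ b ≤ N) :
    ∃ K : ℕ, (y ^ (2 ^ K)) ^ b ≤ N ∧ N < (y ^ (2 ^ K)) ^ (2 * b) := by
  have hex : ∃ K : ℕ, N < (y ^ (2 ^ K)) ^ b := by
    refine ⟨N, ?_⟩
    calc N < 2 ^ N := Nat.lt_two_pow_self
      _ ≤ y ^ N := Nat.pow_le_pow_left hy N
      _ ≤ y ^ (2 ^ N) := Nat.pow_le_pow_right (by omega) (Nat.lt_two_pow_self).le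
      _ = (y ^ (2 ^ N)) ^ 1 := (pow_one _).symm
      _ ≤ (y ^ (2 ^ N)) ^ b := Nat.pow_le_pow_right (Nat.pow_pos (by omega)) hb
  obtain ⟨K', hK'⟩ : ∃ K', Nat.find hex = K' := ⟨_, rfl⟩
  have hsp := Nat.find_spec hex
  cases K' with
  | zero =>
    exfalso
    rw [hK'] at hsp
    simp only [pow_zero, pow_one] at hsp
    omega
  | succ K =>
    refine ⟨K, ?_, ?_⟩
    · have h1 := Nat.find_min hex (m := K) (by omega)
      omega
    · rw [hK'] at hsp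
      calc N < (y ^ (2 ^ (K + 1))) ^ b := hsp
        _ = (y ^ (2 ^ K)) ^ (2 * b) := by
          rw [← pow_mul, ← pow_mul, pow_succ]
          congr 1
          ring

theorem reg_markov (S : Finset (ℤ × ℤ)) (f : ℤ × ℤ → ℕ) (t : ℕ) (R B : ℝ) (hR : 0 < R)
    (h : ∑ v ∈ S, (f v : ℝ) ^ t ≤ B) :
    ((S.filter (fun v => R < (f v : ℝ))).card : ℝ) * R ^ t ≤ B := by
  calc ((S.filter (fun v => R < (f v : ℝ))).card : ℝ) * R ^ t
      = ∑ _v ∈ S.filter (fun v => R < (f v : ℝ)), R ^ t := by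
        rw [Finset.sum_const, nsmul_eq_mul]
    _ ≤ ∑ v ∈ S.filter (fun v => R < (f v : ℝ)), (f v : ℝ) ^ t := by
        apply Finset.sum_le_sum
        intro v hv
        have := (Finset.mem_filter.1 hv).2
        exact pow_le_pow_left₀ hR.le this.le t
    _ ≤ ∑ v ∈ S, (f v : ℝ) ^ t := by
        apply Finset.sum_le_sum_of_subset_of_nonneg (Finset.filter_subset _ _)
        intro v _ _
        positivity
    _ ≤ B := h

theorem reg_log (L : ℕ) (y C4 d : ℝ) (hy : 1 ≤ y) (hd : 0 < d) (h : y * d ^ 2 ≤ C4) :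
    (1 + Real.log y) ^ L ≤ (2 * (L : ℝ) + 3) ^ L * Real.sqrt C4 / d := by
  have hL : (0 : ℝ) ≤ L := Nat.cast_nonneg L
  have h1 : Real.log y ≤ y ^ (1 / (2 * ((L : ℝ) + 1))) / (1 / (2 * ((L : ℝ) + 1))) :=
    Real.log_le_rpow_div (by linarith) (by positivity)
  have h2 : 1 ≤ y ^ (1 / (2 * ((L : ℝ) + 1))) := Real.one_le_rpow hy (by positivity)
  have h3 : 1 + Real.log y ≤ (2 * (L : ℝ) + 3) * y ^ (1 / (2 * ((L : ℝ) + 1))) := by
    have h31 : y ^ (1 / (2 * ((L : ℝ) + 1))) / (1 / (2 * ((L : ℝ) + 1))) =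
        (2 * ((L : ℝ) + 1)) * y ^ (1 / (2 * ((L : ℝ) + 1))) := by
      rw [div_div_eq_mul_div, div_one, mul_comm]
    rw [h31] at h1
    linarith
  have h4 : 0 ≤ 1 + Real.log y := by
    have := Real.log_nonneg hy
    linarith
  have h5 : (y ^ (1 / (2 * ((L : ℝ) + 1)))) ^ L ≤ Real.sqrt y := by
    rw [← Real.rpow_natCast, ← Real.rpow_mul (by linarith), Real.sqrt_eq_rpow]
    apply Real.rpow_le_rpow_of_exponent_le hy
    rw [div_mul_eq_mul_div, one_mul, div_le_div_iff₀ (by positivity) (by norm_num)]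
    linarith
  have h6 : Real.sqrt y ≤ Real.sqrt C4 / d := by
    rw [le_div_iff₀ hd]
    calc Real.sqrt y * d = Real.sqrt (y * d ^ 2) := by
          rw [Real.sqrt_mul (by linarith), Real.sqrt_sq hd.le]
      _ ≤ Real.sqrt C4 := Real.sqrt_le_sqrt h
  calc (1 + Real.log y) ^ L ≤ ((2 * (L : ℝ) + 3) * y ^ (1 / (2 * ((L : ℝ) + 1)))) ^ L :=
        pow_le_pow_left₀ h4 h3 L
    _ = (2 * (L : ℝ) + 3) ^ L * (y ^ (1 / (2 * ((L : ℝ) + 1)))) ^ L := by rw [mul_pow]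
    _ ≤ (2 * (L : ℝ) + 3) ^ L * (Real.sqrt C4 / d) := by
        apply mul_le_mul_of_nonneg_left (h5.trans h6)
        positivity
    _ = (2 * (L : ℝ) + 3) ^ L * Real.sqrt C4 / d := by rw [mul_div_assoc]

theorem reg_exp (t : ℕ) (ε C6 d Q : ℝ) (ht : 1 ≤ t) (hε : 2 / (t : ℝ) ≤ ε) (hC6 : 0 ≤ C6)
    (hd : 0 < d) (hd1 : d ≤ 1) (hQ0 : 0 ≤ Q) (hQ : Q * d ^ 2 ≤ C6) :
    max 1 (Q ^ (1 / (t : ℝ))) * d ^ ε ≤ 1 + C6 ^ (1 / (t : ℝ)) := by
  have ht0 : (0 : ℝ) < t := by exact_mod_cast ht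
  have hε0 : 0 < ε := lt_of_lt_of_le (by positivity) hε
  have h1 : d ^ ε ≤ 1 := Real.rpow_le_one hd.le hd1 hε0.le
  have h2 : Q ^ (1 / (t : ℝ)) * d ^ ε ≤ C6 ^ (1 / (t : ℝ)) := by
    calc Q ^ (1 / (t : ℝ)) * d ^ ε ≤ Q ^ (1 / (t : ℝ)) * d ^ (2 / (t : ℝ)) := by
          apply mul_le_mul_of_nonneg_left _ (Real.rpow_nonneg hQ0 _)
          exact Real.rpow_le_rpow_of_exponent_ge hd hd1 hε
      _ = (Q * d ^ 2) ^ (1 / (t : ℝ)) := by
          rw [Real.mul_rpow hQ0 (by positivity)]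
          congr 1
          rw [← Real.rpow_natCast d 2, ← Real.rpow_mul hd.le]
          congr 1
          push_cast
          ring
      _ ≤ C6 ^ (1 / (t : ℝ)) := Real.rpow_le_rpow (by positivity) hQ (by positivity)
  have h3 : 0 ≤ C6 ^ (1 / (t : ℝ)) := Real.rpow_nonneg hC6 _
  rcases max_choice 1 (Q ^ (1 / (t : ℝ))) with h | h
  · rw [h]
    linarith
  · rw [h]
    linarith

theorem reg_N0 (A B : ℝ) : ∃ N₀ : ℕ, ∀ N : ℕ, N₀ ≤ N →
    2 ≤ N ∧ A ≤ (N : ℝ) ^ (1 / 2 : ℝ) ∧ B ≤ (N : ℝ) ^ (3 / 8 : ℝ) := by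
  have h1 : Filter.Tendsto (fun N : ℕ => (N : ℝ) ^ (1 / 2 : ℝ)) Filter.atTop Filter.atTop :=
    (tendsto_rpow_atTop (by norm_num)).comp tendsto_natCast_atTop_atTop
  have h2 : Filter.Tendsto (fun N : ℕ => (N : ℝ) ^ (3 / 8 : ℝ)) Filter.atTop Filter.atTop :=
    (tendsto_rpow_atTop (by norm_num)).comp tendsto_natCast_atTop_atTop
  have h3 := (Filter.eventually_ge_atTop 2).and
    ((h1.eventually_ge_atTop A).and (h2.eventually_ge_atTop B))
  obtain ⟨N₀, h⟩ := Filter.eventually_atTop.1 h3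
  exact ⟨N₀, fun N hN => h N hN⟩

/-- the choice of `y` -/
theorem reg_y (y₀ b : ℕ) (C1 C4 d N : ℝ) (hb : 1 ≤ b) (hC4 : C4 = y₀ + 6 + C1 ^ 2 + 1)
    (hd : 0 < d) (hd1 : d ≤ 1) (hN : 2 ≤ N) (hdN : N ^ (-(1 / (8 * (b : ℝ)))) ≤ d)
    (hC1 : 0 < C1) (hA : C4 ^ b ≤ N ^ (1 / 2 : ℝ)) :
    ∃ y : ℕ, y₀ ≤ y ∧ 6 ≤ y ∧ C1 / d ≤ Real.sqrt y ∧ (y : ℝ) * d ^ 2 ≤ C4 ∧ (y : ℝ) ^ b ≤ N := by
  have hb0 : (0 : ℝ) < b := by exact_mod_cast hb
  have hN0 : 0 < N := by linarith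
  have hy00 : (0 : ℝ) ≤ y₀ := Nat.cast_nonneg _
  refine ⟨max (max y₀ 6) ⌈(C1 / d) ^ 2⌉₊, (le_max_left _ _).trans (le_max_left _ _),
    (le_max_right _ _).trans (le_max_left _ _), ?_, ?_⟩
  · apply Real.le_sqrt_of_sq_le
    calc (C1 / d) ^ 2 ≤ (⌈(C1 / d) ^ 2⌉₊ : ℝ) := Nat.le_ceil _
      _ ≤ ((max (max y₀ 6) ⌈(C1 / d) ^ 2⌉₊ : ℕ) : ℝ) := by
          exact_mod_cast le_max_right _ _
  · have h1 : ((max (max y₀ 6) ⌈(C1 / d) ^ 2⌉₊ : ℕ) : ℝ) ≤ y₀ + 6 + ((C1 / d) ^ 2 + 1) := by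
      have h11 : (⌈(C1 / d) ^ 2⌉₊ : ℝ) ≤ (C1 / d) ^ 2 + 1 :=
        (Nat.ceil_lt_add_one (by positivity)).le
      have h12 : 0 ≤ (C1 / d) ^ 2 := by positivity
      push_cast
      apply max_le
      · apply max_le <;> linarith
      · linarith
    generalize (max (max y₀ 6) ⌈(C1 / d) ^ 2⌉₊ : ℕ) = y at h1 ⊢
    have h2 : (y : ℝ) * d ^ 2 ≤ C4 := by
      have h21 : d ^ 2 ≤ 1 := pow_le_one₀ hd.le hd1
      have h22 : (C1 / d) ^ 2 * d ^ 2 = C1 ^ 2 := by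
        rw [div_pow]
        field_simp
      calc (y : ℝ) * d ^ 2 ≤ (y₀ + 6 + ((C1 / d) ^ 2 + 1)) * d ^ 2 :=
            mul_le_mul_of_nonneg_right h1 (by positivity)
        _ = (y₀ + 7) * d ^ 2 + (C1 / d) ^ 2 * d ^ 2 := by ring
        _ ≤ (y₀ + 7) * 1 + C1 ^ 2 := by
            rw [h22]
            have := mul_le_mul_of_nonneg_left h21 (by positivity : (0 : ℝ) ≤ y₀ + 7)
            linarith
        _ = C4 := by rw [hC4]; ring
    refine ⟨h2, ?_⟩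
    have hC40 : 0 < C4 := by rw [hC4]; positivity
    have h3 : 1 ≤ d ^ 2 * N ^ (2 * (1 / (8 * (b : ℝ)))) := by
      have h31 : (N ^ (-(1 / (8 * (b : ℝ))))) ^ 2 ≤ d ^ 2 :=
        pow_le_pow_left₀ (Real.rpow_nonneg hN0.le _) hdN 2
      calc (1 : ℝ) = (N ^ (-(1 / (8 * (b : ℝ))))) ^ 2 * N ^ (2 * (1 / (8 * (b : ℝ)))) := by
            rw [← Real.rpow_natCast, ← Real.rpow_mul hN0.le, ← Real.rpow_add hN0]
            have : -(1 / (8 * (b : ℝ))) * ((2 : ℕ) : ℝ) + 2 * (1 / (8 * (b : ℝ))) = 0 := by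
              push_cast
              ring
            rw [this, Real.rpow_zero]
        _ ≤ d ^ 2 * N ^ (2 * (1 / (8 * (b : ℝ)))) :=
            mul_le_mul_of_nonneg_right h31 (Real.rpow_nonneg hN0.le _)
    have h4 : (y : ℝ) ≤ C4 * N ^ (2 * (1 / (8 * (b : ℝ)))) := by
      have hy0 : (0 : ℝ) ≤ y := Nat.cast_nonneg _
      calc (y : ℝ) = y * 1 := (mul_one _).symm
        _ ≤ y * (d ^ 2 * N ^ (2 * (1 / (8 * (b : ℝ))))) := mul_le_mul_of_nonneg_left h3 hy0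
        _ = y * d ^ 2 * N ^ (2 * (1 / (8 * (b : ℝ)))) := by ring
        _ ≤ C4 * N ^ (2 * (1 / (8 * (b : ℝ)))) :=
            mul_le_mul_of_nonneg_right h2 (Real.rpow_nonneg hN0.le _)
    calc (y : ℝ) ^ b ≤ (C4 * N ^ (2 * (1 / (8 * (b : ℝ))))) ^ b :=
          pow_le_pow_left₀ (Nat.cast_nonneg _) h4 b
      _ = C4 ^ b * N ^ (1 / 4 : ℝ) := by
          rw [mul_pow, ← Real.rpow_natCast (N ^ (2 * (1 / (8 * (b : ℝ))))) b,
            ← Real.rpow_mul hN0.le]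
          congr 2
          field_simp
          norm_num
      _ ≤ N ^ (1 / 2 : ℝ) * N ^ (1 / 4 : ℝ) :=
          mul_le_mul_of_nonneg_right hA (Real.rpow_nonneg hN0.le _)
      _ = N ^ (3 / 4 : ℝ) := by
          rw [← Real.rpow_add hN0]
          norm_num
      _ ≤ N ^ (1 : ℝ) := Real.rpow_le_rpow_of_exponent_le (by linarith) (by norm_num)
      _ = N := Real.rpow_one N

theorem st_REG (hLOW : ST_LOW) (hMOM : ST_MOM) (hSWL : ST_SWL) (hCORE : ST_CORE) : ST_REG := by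
  intro ε hε
  obtain ⟨t, ht⟩ := exists_nat_gt (2 / ε)
  have ht0 : (0 : ℝ) < t := lt_trans (by positivity) ht
  have ht1 : 1 ≤ t := by exact_mod_cast ht0
  have hte : 2 / (t : ℝ) ≤ ε := by
    rw [div_le_iff₀ ht0]
    rw [div_lt_iff₀ hε] at ht
    linarith
  obtain ⟨b1, y₀, c1, C1, hb1, hc1, hC1, hL⟩ := hLOW
  obtain ⟨b2, L, C2, hb2, hC2, hM⟩ := hMOM t
  obtain ⟨c3, hc3, hS⟩ := hSWL
  obtain ⟨j, hj⟩ := reg_root
  obtain ⟨b, hbdef⟩ : ∃ b : ℕ, b = max b1 b2 := ⟨_, rfl⟩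
  have hbb1 : b1 ≤ b := hbdef ▸ le_max_left _ _
  have hbb2 : b2 ≤ b := hbdef ▸ le_max_right _ _
  have hb : 1 ≤ b := hb1.trans hbb1
  have hb0 : (0 : ℝ) < b := by exact_mod_cast hb
  obtain ⟨C4, hC4⟩ : ∃ C4 : ℝ, C4 = y₀ + 6 + C1 ^ 2 + 1 := ⟨_, rfl⟩
  have hC40 : 0 < C4 := by rw [hC4]; positivity
  obtain ⟨C5, hC5⟩ : ∃ C5 : ℝ, C5 = (2 * (L : ℝ) + 3) ^ L * Real.sqrt C4 := ⟨_, rfl⟩
  have hC50 : 0 ≤ C5 := by rw [hC5]; positivity
  obtain ⟨C6, hC6⟩ : ∃ C6 : ℝ, C6 = 4 * C2 * C5 / c1 := ⟨_, rfl⟩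
  have hC60 : 0 ≤ C6 := by rw [hC6]; positivity
  obtain ⟨C7, hC7⟩ : ∃ C7 : ℝ, C7 = 1 + C6 ^ (1 / (t : ℝ)) := ⟨_, rfl⟩
  have hC70 : 0 < C7 := by
    rw [hC7]
    have := Real.rpow_nonneg hC60 (1 / (t : ℝ))
    linarith
  obtain ⟨N₀, hN₀⟩ := reg_N0 (C4 ^ b) (4 / (c1 * c3))
  refine ⟨c1 * c3 / (2 ^ (4 * b + 2 + 4) * C7), 1 / (8 * (b : ℝ)), N₀, by positivity,
    by positivity, ?_⟩
  intro N M P hN hMN hNM hP hn
  obtain ⟨hN2, hNA, hNB⟩ := hN₀ N hN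
  have hM1 : 1 ≤ M := by
    rcases Nat.eq_zero_or_pos M with h | h
    · exfalso
      rw [h] at hNM
      simp at hNM
      omega
    · exact h
  have hNr : (2 : ℝ) ≤ N := by exact_mod_cast hN2
  have hN0 : (0 : ℝ) < N := by linarith
  have hMr : (1 : ℝ) ≤ M := by exact_mod_cast hM1
  have hM0 : (0 : ℝ) < M := by linarith
  have hMN0 : (0 : ℝ) < M * N := by positivity
  have hn0 : (0 : ℝ) < P.card := lt_of_lt_of_le (by positivity) hn
  have hn1 : 1 ≤ P.card := by exact_mod_cast hn0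
  have hcard : (P.card : ℝ) ≤ M * N := by
    have h1 := reg_card_box N M P hP
    have h2 : (P.card : ℝ) ≤ ((N * M : ℕ) : ℝ) := by exact_mod_cast h1
    rw [Nat.cast_mul] at h2
    linarith [mul_comm (N : ℝ) (M : ℝ)]
  obtain ⟨d, hddef⟩ : ∃ d : ℝ, d = (P.card : ℝ) / (M * N) := ⟨_, rfl⟩
  have hd : 0 < d := by rw [hddef]; positivity
  have hd1 : d ≤ 1 := by
    rw [hddef, div_le_one hMN0]
    exact hcard
  have hdn : d * (M * N) = P.card := by
    rw [hddef, div_mul_cancel₀ _ hMN0.ne']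
  have hdN : (N : ℝ) ^ (-(1 / (8 * (b : ℝ)))) ≤ d := by
    rw [hddef, le_div_iff₀ hMN0]
    linarith [mul_comm ((N : ℝ) ^ (-(1 / (8 * (b : ℝ))))) ((M : ℝ) * N)]
  rw [← hddef]
  obtain ⟨y, hy0, hy6, hysq, hyd, hyb⟩ := reg_y y₀ b C1 C4 d N hb hC4 hd hd1 hNr hdN hC1 hNA
  have hyb' : y ^ b ≤ N := by exact_mod_cast hyb
  have hy1 : (1 : ℝ) ≤ y := by
    have : (6 : ℝ) ≤ y := by exact_mod_cast hy6
    linarith
  obtain ⟨K, hK1, hK2⟩ := reg_K y b N (by omega) hb hyb'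
  obtain ⟨z, hz⟩ : ∃ z : ℕ, z = y ^ (2 ^ K) := ⟨_, rfl⟩
  have hyz : y ≤ z := by
    rw [hz]
    calc y = y ^ 1 := (pow_one y).symm
      _ ≤ y ^ (2 ^ K) := Nat.pow_le_pow_right (by omega) Nat.one_le_two_pow
  have hz1 : 1 ≤ z := by omega
  have hzN : z ≤ N := by
    calc z = z ^ 1 := (pow_one z).symm
      _ ≤ z ^ b := Nat.pow_le_pow_right hz1 hb
      _ ≤ N := by rw [hz]; exact hK1
  have hLz := hL j N M P y K hM1 (by omega) hP hy0 ((Nat.pow_le_pow_right (by omega) hbb1).trans hK1)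
    (by
      calc C1 * ((M : ℝ) * N) = C1 / d * (d * (M * N)) := by
            field_simp
        _ ≤ Real.sqrt y * (d * (M * N)) := mul_le_mul_of_nonneg_right hysq (by positivity)
        _ = Real.sqrt y * P.card := by rw [hdn])
  rw [← hz] at hK1 hK2 hLz
  have hMz := hM j N M y z hy6 hyz ((Nat.pow_le_pow_right hz1 hbb2).trans hK1) hM1 hMN hNM
  have hSz := hS y z (by omega) hyz
  obtain ⟨s, hs⟩ : ∃ s : ℝ, s = sw (P1 y z) := ⟨_, rfl⟩
  rw [← hs] at hLz hMz hSz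
  have hs0 : 0 < s := by rw [hs]; exact Real.exp_pos _
  have hlogN : 0 < Real.log N := Real.log_pos (by linarith)
  have hlogz : 0 < Real.log z := by
    apply Real.log_pos
    have : (6 : ℝ) ≤ z := by exact_mod_cast hy6.trans hyz
    linarith
  have hsN : c3 / Real.sqrt (Real.log N) ≤ s := by
    refine le_trans ?_ hSz
    apply div_le_div_of_nonneg_left hc3.le (Real.sqrt_pos.2 hlogz)
    apply Real.sqrt_le_sqrt
    apply Real.log_le_log (by exact_mod_cast hz1)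
    exact_mod_cast hzN
  have hly0 : 0 ≤ Real.log y := Real.log_nonneg hy1
  have hly : (0 : ℝ) < (1 + Real.log y) ^ L := by positivity
  obtain ⟨Q, hQ⟩ : ∃ Q : ℝ, Q = 4 * C2 * (1 + Real.log y) ^ L / (c1 * d) := ⟨_, rfl⟩
  have hQ0 : 0 < Q := by rw [hQ]; positivity
  obtain ⟨R, hR⟩ : ∃ R : ℝ, R = max 1 (Q ^ (1 / (t : ℝ))) := ⟨_, rfl⟩
  have hR1 : 1 ≤ R := hR ▸ le_max_left _ _
  have hR0 : 0 < R := by linarith
  have hRt : Q ≤ R ^ t := by
    have h1 : Q ^ (1 / (t : ℝ)) ≤ R := hR ▸ le_max_right _ _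
    calc Q = (Q ^ (1 / (t : ℝ))) ^ t := by
          rw [← Real.rpow_natCast, ← Real.rpow_mul hQ0.le, one_div,
            inv_mul_cancel₀ ht0.ne', Real.rpow_one]
      _ ≤ R ^ t := pow_le_pow_left₀ (Real.rpow_nonneg hQ0.le _) h1 t
  have hlog := reg_log L y C4 d hy1 hd hyd
  rw [← hC5] at hlog
  have hQd : Q * d ^ 2 ≤ C6 := by
    rw [hQ, hC6]
    have h1 : 4 * C2 * (1 + Real.log y) ^ L / (c1 * d) * d ^ 2 =
        4 * C2 * ((1 + Real.log y) ^ L * d) / c1 := by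
      field_simp
    rw [h1]
    have h2 : (1 + Real.log y) ^ L * d ≤ C5 := by
      rw [le_div_iff₀ hd] at hlog
      exact hlog
    exact div_le_div_of_nonneg_right (mul_le_mul_of_nonneg_left h2 (by positivity)) hc1.le
  have hRd := reg_exp t ε C6 d Q ht1 hte hC60 hd hd1 hQ0.le hQd
  rw [← hR, ← hC7] at hRd
  -- the bad set
  have hbad : (((sbox N M).filter (fun v => v ≠ 0 ∧ Free j (P1 y z) v ∧ R < tau (ms y v))).card : ℝ)
      ≤ c1 / 4 * s * P.card := by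
    have h1 := reg_markov _ (fun v => tau (ms y v)) t R _ hR0 hMz
    have h2 : ((sbox N M).filter (fun v => v ≠ 0 ∧ Free j (P1 y z) v)).filter
        (fun v => R < (tau (ms y v) : ℝ)) =
        (sbox N M).filter (fun v => v ≠ 0 ∧ Free j (P1 y z) v ∧ R < tau (ms y v)) := by
      rw [Finset.filter_filter]
      apply Finset.filter_congr
      intro v _
      tauto
    rw [h2] at h1
    generalize (((sbox N M).filter
      (fun v => v ≠ 0 ∧ Free j (P1 y z) v ∧ R < tau (ms y v))).card : ℝ) = X at h1 ⊢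
    rcases le_or_gt X 0 with hX | hX
    · refine hX.trans (by positivity)
    · have h3 : X * Q ≤ C2 * (1 + Real.log y) ^ L * ((M : ℝ) * N) * s :=
        (mul_le_mul_of_nonneg_left hRt hX.le).trans h1
      have h4 : X * (4 * C2 * (1 + Real.log y) ^ L) ≤
          c1 * d * (C2 * (1 + Real.log y) ^ L * ((M : ℝ) * N) * s) := by
        have h5 := mul_le_mul_of_nonneg_left h3 (by positivity : 0 ≤ c1 * d)
        have h6 : c1 * d * (X * Q) = X * (4 * C2 * (1 + Real.log y) ^ L) := by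
          rw [hQ]
          field_simp
        rw [h6] at h5
        exact h5
      have h7 : (4 * C2 * (1 + Real.log y) ^ L) * X ≤
          (4 * C2 * (1 + Real.log y) ^ L) * (c1 / 4 * s * P.card) := by
        rw [← hdn]
        calc (4 * C2 * (1 + Real.log y) ^ L) * X = X * (4 * C2 * (1 + Real.log y) ^ L) := by ring
          _ ≤ _ := h4
          _ = _ := by ring
      exact le_of_mul_le_mul_left h7 (by positivity)
  -- the number of points is large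
  have h4 : 4 ≤ c1 * s * P.card := by
    have h41 : (N : ℝ) ^ (7 / 8 : ℝ) ≤ P.card := by
      refine le_trans ?_ hn
      calc (N : ℝ) ^ (7 / 8 : ℝ) ≤ (N : ℝ) ^ (1 + -(1 / (8 * (b : ℝ)))) := by
            apply Real.rpow_le_rpow_of_exponent_le (by linarith)
            have h411 : 1 / (8 * (b : ℝ)) ≤ 1 / 8 := by
              apply one_div_le_one_div_of_le (by norm_num)
              have : (1 : ℝ) ≤ b := by exact_mod_cast hb
              linarith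
            linarith
        _ = 1 * (N : ℝ) * (N : ℝ) ^ (-(1 / (8 * (b : ℝ)))) := by
            rw [Real.rpow_add hN0, Real.rpow_one, one_mul]
        _ ≤ (M : ℝ) * N * (N : ℝ) ^ (-(1 / (8 * (b : ℝ)))) := by
            apply mul_le_mul_of_nonneg_right _ (Real.rpow_nonneg hN0.le _)
            exact mul_le_mul_of_nonneg_right hMr hN0.le
    have h42 : Real.sqrt (Real.log N) ≤ (N : ℝ) ^ (1 / 2 : ℝ) := by
      rw [← Real.sqrt_eq_rpow]
      apply Real.sqrt_le_sqrt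
      have := Real.log_le_sub_one_of_pos hN0
      linarith
    have h43 : 0 < Real.sqrt (Real.log N) := Real.sqrt_pos.2 hlogN
    have h44 : (N : ℝ) ^ (3 / 8 : ℝ) * Real.sqrt (Real.log N) ≤ (N : ℝ) ^ (7 / 8 : ℝ) := by
      calc (N : ℝ) ^ (3 / 8 : ℝ) * Real.sqrt (Real.log N)
          ≤ (N : ℝ) ^ (3 / 8 : ℝ) * (N : ℝ) ^ (1 / 2 : ℝ) :=
            mul_le_mul_of_nonneg_left h42 (Real.rpow_nonneg hN0.le _)
        _ = (N : ℝ) ^ (7 / 8 : ℝ) := by
            rw [← Real.rpow_add hN0]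
            norm_num
    have h45 : 4 / (c1 * c3) * Real.sqrt (Real.log N) ≤ P.card :=
      (mul_le_mul_of_nonneg_right hNB h43.le).trans (h44.trans h41)
    calc (4 : ℝ) = c1 * (c3 / Real.sqrt (Real.log N)) *
          (4 / (c1 * c3) * Real.sqrt (Real.log N)) := by
          field_simp
      _ ≤ c1 * s * P.card := by
          apply mul_le_mul (mul_le_mul_of_nonneg_left hsN hc1.le) h45 (by positivity)
            (by positivity)
  -- k
  have hk : 2 * N ^ 2 < z ^ (4 * b + 2) := by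
    have hz2 : 2 ≤ z := by omega
    have h1 : N ^ 2 < (z ^ (2 * b)) ^ 2 := Nat.pow_lt_pow_left hK2 (by norm_num)
    calc 2 * N ^ 2 < 2 * (z ^ (2 * b)) ^ 2 := by omega
      _ ≤ z ^ 2 * (z ^ (2 * b)) ^ 2 := Nat.mul_le_mul_right _ (by nlinarith)
      _ = z ^ (4 * b + 2) := by
          rw [← pow_mul, ← pow_add]
          congr 1
          ring
  have hfin := hCORE j N M P y z (4 * b + 2) c1 R hj hM1 hMN hP hn1 (by omega) hyz hk hc1 hR1
    (by rw [← hs]; exact h4) (by rw [← hs]; exact hLz) (by rw [← hs]; exact hbad)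
  rw [← hs] at hfin
  have hdc0 : (0 : ℝ) ≤ dc P := Nat.cast_nonneg _
  have hde : 0 < d ^ ε := Real.rpow_pos_of_pos hd ε
  have h8 : c1 * (c3 / Real.sqrt (Real.log N)) * P.card * d ^ ε ≤
      2 ^ (4 * b + 2 + 4) * C7 * dc P := by
    calc c1 * (c3 / Real.sqrt (Real.log N)) * P.card * d ^ ε ≤ c1 * s * P.card * d ^ ε := by
          apply mul_le_mul_of_nonneg_right _ hde.le
          apply mul_le_mul_of_nonneg_right _ hn0.le
          exact mul_le_mul_of_nonneg_left hsN hc1.le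
      _ ≤ (2 ^ (4 * b + 2 + 4) * R * dc P) * d ^ ε := mul_le_mul_of_nonneg_right hfin hde.le
      _ = 2 ^ (4 * b + 2 + 4) * (R * d ^ ε) * dc P := by ring
      _ ≤ 2 ^ (4 * b + 2 + 4) * C7 * dc P := by
          apply mul_le_mul_of_nonneg_right _ hdc0
          exact mul_le_mul_of_nonneg_left hRd (by positivity)
  have h9 : c1 * c3 / (2 ^ (4 * b + 2 + 4) * C7) * d ^ ε * P.card / Real.sqrt (Real.log N) =
      (c1 * (c3 / Real.sqrt (Real.log N)) * P.card * d ^ ε) / (2 ^ (4 * b + 2 + 4) * C7) := by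
    ring
  rw [h9, div_le_iff₀ (by positivity)]
  calc _ ≤ 2 ^ (4 * b + 2 + 4) * C7 * dc P := h8
    _ = _ := by ring

end Pool.Agent.Helper37.DG
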